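import Mathlib
import Pool.Agent.Helper9CC.Proj
import Pool.Agent.W684.FM.Ambient

/-!
# Dense countably compact subgroups of `K^ω₁` without uncountable compacta: not a theorem of ZFC

Under Martin's axiom for `ℵ₁` dense sets every infinite countably compact subgroup `D` of a compact
group `G` of weight at most `ℵ₁` contains an uncountable compact subgroup. In particular every
dense countably compact subgroup of `K^ω₁` contains an uncountable compact subset, for `K = 𝕋` and
for `K = ℤ(p)`.

Sketch. Let `A ⊆ D` be a countable infinite subgroup and let `x ∉ A` be a point of the closure of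
`A` in `G`. By Martin's axiom (Solovay's lemma, applied to the traces on `A` of the at most `ℵ₁`
sets of a local base at `x`) some infinite set `C ⊆ A` converges to `x`. By countable compactness
`C` has an accumulation point in `D`, which can only be `x`. So the closure of `A` is contained in
`D`. It is an infinite compact group, which is uncountable by Baire's theorem.

The forcing language used for the consistency statement is the one of
`Pool.Agent.Helper669.Forcing`; `MartinHolds P Om1` is the translation of `MartinFor Om1` into this
language (both in `Pool.Agent.W684.FM.Defs`).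
-/

set_option autoImplicit false

namespace Pool.Agent.Results.MP_e377f6_gt.NotATheorem

open Cardinal Pool.Agent.Helper669.Forcing Pool.Agent.W684.FM

/-- The countable chain condition: every set of pairwise incompatible conditions is countable
(a smaller condition is stronger). -/
def IsCCC (P : Type) [Preorder P] : Prop :=
  ∀ A : Set P, (∀ p ∈ A, ∀ q ∈ A, p ≠ q → ¬ ∃ r : P, r ≤ p ∧ r ≤ q) → A.Countable

/-- Martin's axiom for `ℵ₁` dense sets: for every nonempty preordered set `P` with the countable
chain condition and every family of at most `ℵ₁` dense subsets of `P` there is a filter in `P`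
which meets each of them. -/
def MartinAxiomAleph1 : Prop :=
  ∀ (P : Type) [Preorder P] [Nonempty P], IsCCC P →
    ∀ 𝒟 : Set (Set P), #𝒟 ≤ ℵ₁ → (∀ D ∈ 𝒟, ∀ p : P, ∃ q ∈ D, q ≤ p) →
      ∃ G : Set P, G.Nonempty ∧ (∀ p ∈ G, ∀ q : P, p ≤ q → q ∈ G) ∧
        (∀ p ∈ G, ∀ q ∈ G, ∃ r ∈ G, r ≤ p ∧ r ≤ q) ∧ ∀ D ∈ 𝒟, (G ∩ D).Nonempty

/-- The weight of a topological space: the least cardinality of a base. -/
noncomputable def weight (X : Type) [TopologicalSpace X] : Cardinal.{0} :=
  sInf {κ | ∃ B : Set (Set X), TopologicalSpace.IsTopologicalBasis B ∧ #B = κ}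

/-- The question for the group `K`: `K^ω₁` has a dense countably compact subgroup `D` such that
every compact subset of `D` is countable. -/
def HasSubgroup (K : Type) [Group K] [TopologicalSpace K] : Prop :=
  ∃ D : Subgroup (Om1 → K), Dense (D : Set (Om1 → K)) ∧ CountablyCompactSpace D ∧
    ∀ C : Set (Om1 → K), C ⊆ D → IsCompact C → C.Countable

/-- (1) There is a preordered set `P` of forcing conditions such that every condition forces that
the cardinals of the ground model remain cardinals, that `ω₁` is preserved and that Martin's axiom
for `ℵ₁` dense sets holds; (2) the plain form of the latter sentence. (3) Martin's axiom for `ℵ₁`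
dense sets implies that every infinite countably compact subgroup of a compact group of weight at
most `ℵ₁` contains an uncountable compact subgroup. (4) So it implies that the answer to the
question is negative for `K = 𝕋` and for `K = ℤ(p)`, for every prime `p`. -/
theorem result :
    (∃ (P : Type) (_ : Preorder P), Nonempty P ∧ ∀ p : P,
      p ∈ CardinalsPreserved.{0, 0} P ∧ p ∈ OmegaOnePreserved P ∧ p ∈ MartinHolds P Om1) ∧
    (MartinFor Om1 ↔ MartinAxiomAleph1) ∧
    (MartinAxiomAleph1 → ∀ (G : Type) [Group G] [TopologicalSpace G] [IsTopologicalGroup G]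
      [CompactSpace G] [T2Space G], weight G ≤ ℵ₁ →
        ∀ D : Subgroup G, CountablyCompactSpace D → (D : Set G).Infinite →
          ∃ C : Subgroup G, C ≤ D ∧ IsCompact (C : Set G) ∧ ¬ (C : Set G).Countable) ∧
    (MartinAxiomAleph1 → ¬ HasSubgroup Circle ∧
      ∀ p : ℕ, p.Prime → ¬ HasSubgroup (Multiplicative (ZMod p))) := by
  have hmain : MartinAxiomAleph1 → ∀ (G : Type) [Group G] [TopologicalSpace G]
      [IsTopologicalGroup G] [CompactSpace G] [T2Space G], weight G ≤ ℵ₁ →
        ∀ D : Subgroup G, CountablyCompactSpace D → (D : Set G).Infinite →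
          ∃ C : Subgroup G, C ≤ D ∧ IsCompact (C : Set G) ∧ ¬ (C : Set G).Countable := by
    intro hMA G _ _ _ _ _ hG D hD hinf
    exact Pool.Agent.Helper9CC.exists_compact_subgroup hMA hG D
      (isCountablyCompact_iff_countablyCompactSpace.2 hD) hinf
  have hK : MartinAxiomAleph1 → ∀ (K : Type) [Group K] [TopologicalSpace K]
      [IsTopologicalGroup K] [CompactSpace K] [T2Space K] [SecondCountableTopology K],
      Nontrivial K → ¬ HasSubgroup K := by
    rintro hMA K _ _ _ _ _ _ hn ⟨D, hd, hD, hC⟩
    have hu : Infinite Om1 := by
      rw [Cardinal.infinite_iff, mk_ord_toType]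
      exact Cardinal.aleph0_le_aleph 1
    have hinf : (D : Set (Om1 → K)).Infinite := by
      intro hfin
      have h1 : (D : Set (Om1 → K)) = Set.univ := by
        rw [← hfin.isClosed.closure_eq, hd.closure_eq]
      rw [h1] at hfin
      exact Set.infinite_univ hfin
    obtain ⟨C, hCD, hCc, hCu⟩ := hmain hMA (Om1 → K)
      (Pool.Agent.Helper9CC.weight_pi_le (Cardinal.aleph0_le_aleph 1) (mk_ord_toType _).le) D hD
      hinf
    exact hCu (hC C hCD hCc)
  refine ⟨exists_forcing Om1, martinFor_om1_iff, hmain, fun hMA => ⟨?_, fun p hp => ?_⟩⟩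
  · have hn : Nontrivial Circle := by
      refine ⟨⟨1, -1, ?_⟩⟩
      intro h
      have h1 := congrArg (fun z : Circle => (z : ℂ)) h
      norm_num at h1
    exact hK hMA Circle hn
  · have : Fact p.Prime := ⟨hp⟩
    have : NeZero p := ⟨hp.ne_zero⟩
    have hdisc : DiscreteTopology (Multiplicative (ZMod p)) :=
      inferInstanceAs (DiscreteTopology (ZMod p))
    have hfin : Finite (Multiplicative (ZMod p)) := inferInstanceAs (Finite (ZMod p))
    have hn : Nontrivial (Multiplicative (ZMod p)) := inferInstanceAs (Nontrivial (ZMod p))
    exact hK hMA (Multiplicative (ZMod p)) hn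

end Pool.Agent.Results.MP_e377f6_gt.NotATheorem
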